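import Pool.Agent.J4H61.QB.Stm4

set_option autoImplicit false

/-! Project QB (FE): the expansions of `F` and `G` at diagonal matrices. -/

open Matrix MeasureTheory
open scoped ComplexOrder

namespace Pool.Agent.J4H21.QB.Fe
open Pool.Agent.V11219.MomentOp Pool.Agent.J4H61.QB
open MvPolynomial

variable {d : ℕ}

/-- the finsupp of a function -/
noncomputable abbrev fs (m : Fin d → ℕ) : Fin d →₀ ℕ := Finsupp.equivFunOnFinite.symm m

theorem fs_apply (m : Fin d → ℕ) (i : Fin d) : fs m i = m i := rfl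

theorem fs_inj {m n : Fin d → ℕ} (h : fs m = fs n) : m = n := Finsupp.equivFunOnFinite.symm.injective h

theorem fs_coe (m : Fin d →₀ ℕ) : fs (m : Fin d → ℕ) = m := by ext i; rfl

theorem mem_pa {N : ℕ} {m : Fin d → ℕ} : m ∈ Finset.piAntidiag (Finset.univ : Finset (Fin d)) N ↔ ∑ i, m i = N := by
  rw [Finset.mem_piAntidiag]
  simp

/-- evaluation of a homogeneous polynomial -/
theorem eval_hom {P : MvPolynomial (Fin d) ℂ} {N : ℕ} (hP : P.IsHomogeneous N) (x : Fin d → ℂ) :
    MvPolynomial.eval x P = ∑ m ∈ Finset.piAntidiag Finset.univ N, MvPolynomial.coeff (fs m) P * ∏ i, x i ^ m i := by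
  classical
  rw [MvPolynomial.eval_eq']
  have h1 : ∑ m ∈ Finset.piAntidiag Finset.univ N, MvPolynomial.coeff (fs m) P * ∏ i, x i ^ m i =
      ∑ n ∈ (Finset.piAntidiag (Finset.univ : Finset (Fin d)) N).image fs, MvPolynomial.coeff n P * ∏ i, x i ^ n i := by
    rw [Finset.sum_image (fun a _ b _ h => fs_inj h)]
    rfl
  rw [h1]
  refine Finset.sum_subset ?_ ?_
  · intro n hn
    rw [Finset.mem_image]
    refine ⟨n, mem_pa.2 ?_, fs_coe n⟩
    have := hP (MvPolynomial.mem_support_iff.1 hn)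
    rw [← this, Finsupp.weight_apply, Finsupp.sum_fintype]
    · simp
    · intro i; simp
  · intro n _ hn
    rw [MvPolynomial.notMem_support_iff.1 hn, zero_mul]

/-- a sum of monomials -/
noncomputable def Q (t : ℕ) (w : (Fin d → ℕ) → ℂ) : MvPolynomial (Fin d) ℂ :=
  ∑ m ∈ Finset.piAntidiag Finset.univ t, MvPolynomial.monomial (fs m)
    ((t.factorial : ℂ) / (∏ i, ((m i).factorial : ℂ)) * w m)

theorem coeff_Q (t : ℕ) (w : (Fin d → ℕ) → ℂ) (m : Fin d → ℕ) :
    MvPolynomial.coeff (fs m) (Q t w) = if ∑ i, m i = t then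
      (t.factorial : ℂ) / (∏ i, ((m i).factorial : ℂ)) * w m else 0 := by
  classical
  unfold Q
  rw [MvPolynomial.coeff_sum]
  simp only [MvPolynomial.coeff_monomial]
  split_ifs with h
  · rw [Finset.sum_eq_single m]
    · rw [if_pos rfl]
    · intro n _ hn
      rw [if_neg (fun h => hn (fs_inj h))]
    · intro h2
      exact absurd (mem_pa.2 h) h2
  · refine Finset.sum_eq_zero fun n hn => ?_
    rw [if_neg]
    intro h2
    rw [fs_inj h2] at hn
    exact h (mem_pa.1 hn)

theorem Q_hom (t : ℕ) (w : (Fin d → ℕ) → ℂ) : (Q t w).IsHomogeneous t := by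
  unfold Q
  refine MvPolynomial.IsHomogeneous.sum _ _ _ fun m hm => ?_
  refine MvPolynomial.isHomogeneous_monomial _ ?_
  rw [Finsupp.degree_eq_sum]
  exact mem_pa.1 hm

/-- evaluation for means -/
theorem eval_Q (t : ℕ) (g : Matrix.unitaryGroup (Fin d) ℂ → ℂ) (hg : Continuous g) (x : Fin d → ℂ) :
    MvPolynomial.eval x (Q t fun m => ∫ U : Matrix.unitaryGroup (Fin d) ℂ, g U *
      ∏ i, (star ((U : Mat d) i i)) ^ (m i) ∂(haarU (Fin d))) =
    ∫ U : Matrix.unitaryGroup (Fin d) ℂ, g U * (∑ i, x i * star ((U : Mat d) i i)) ^ t ∂(haarU (Fin d)) := by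
  have hc : ∀ i, Continuous fun U : Matrix.unitaryGroup (Fin d) ℂ => star ((U : Mat d) i i) := fun i =>
    (continuous_subtype_val.matrix_elem i i).star
  have hint : ∀ m : Fin d → ℕ, Integrable (fun U : Matrix.unitaryGroup (Fin d) ℂ =>
      ((t.factorial : ℂ) / (∏ i, ((m i).factorial : ℂ)) * (∏ i, x i ^ m i)) * (g U *
      ∏ i, (star ((U : Mat d) i i)) ^ (m i))) (haarU (Fin d)) := fun m =>
    (continuous_const.mul (hg.mul (continuous_finsetProd _ fun i _ => (hc i).pow _))).integrable_of_hasCompactSupport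
      (HasCompactSupport.of_compactSpace _)
  have h1 : MvPolynomial.eval x (Q t fun m => ∫ U : Matrix.unitaryGroup (Fin d) ℂ, g U *
      ∏ i, (star ((U : Mat d) i i)) ^ (m i) ∂(haarU (Fin d))) = ∑ m ∈ Finset.piAntidiag Finset.univ t,
      ∫ U : Matrix.unitaryGroup (Fin d) ℂ, ((t.factorial : ℂ) / (∏ i, ((m i).factorial : ℂ)) * (∏ i, x i ^ m i)) * (g U *
      ∏ i, (star ((U : Mat d) i i)) ^ (m i)) ∂(haarU (Fin d)) := by
    unfold Q
    rw [map_sum]
    refine Finset.sum_congr rfl fun m _ => ?_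
    rw [MvPolynomial.eval_monomial, integral_const_mul, Finsupp.prod_fintype _ _ (fun i => pow_zero _)]
    simp only [fs_apply]
    ring
  rw [h1, ← integral_finsetSum _ fun m _ => hint m]
  refine integral_congr_ae (Filter.Eventually.of_forall fun U => ?_)
  show ∑ m ∈ Finset.piAntidiag Finset.univ t, ((t.factorial : ℂ) / (∏ i, ((m i).factorial : ℂ)) * (∏ i, x i ^ m i)) *
    (g U * ∏ i, (star ((U : Mat d) i i)) ^ (m i)) = g U * (∑ i, x i * star ((U : Mat d) i i)) ^ t
  rw [Finset.sum_pow_eq_sum_piAntidiag, Finset.mul_sum]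
  refine Finset.sum_congr rfl fun m hm => ?_
  have h2 : (t.factorial : ℂ) / (∏ i, ((m i).factorial : ℂ)) = (Nat.multinomial Finset.univ m : ℂ) := by
    have h3 := Nat.multinomial_spec Finset.univ m
    rw [mem_pa.1 hm] at h3
    have h4 : (∏ i, ((m i).factorial : ℂ)) ≠ 0 := Finset.prod_ne_zero_iff.2 fun i _ => by
      exact_mod_cast Nat.factorial_ne_zero _
    rw [div_eq_iff h4, ← h3]
    push_cast
    ring
  rw [h2]
  simp only [mul_pow, Finset.prod_mul_distrib]
  ring

theorem fp_eq (t : ℕ) : fp d t = Q t fun m => ∫ U : Matrix.unitaryGroup (Fin d) ℂ, (Matrix.trace (U : Mat d)) ^ t *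
      ∏ i, (star ((U : Mat d) i i)) ^ (m i) ∂(haarU (Fin d)) := rfl

/-- the sum of the derivatives -/
noncomputable def D (P : MvPolynomial (Fin d) ℂ) : MvPolynomial (Fin d) ℂ := ∑ i, MvPolynomial.pderiv i P

theorem D_mul (P R : MvPolynomial (Fin d) ℂ) : D (P * R) = D P * R + P * D R := by
  unfold D
  simp only [MvPolynomial.pderiv_mul]
  rw [Finset.sum_add_distrib, Finset.sum_mul, Finset.mul_sum]

theorem D_vp : D (vp d) = 0 := by
  unfold vp
  refine Finset.prod_induction _ (fun p => D p = 0) ?_ ?_ ?_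
  · intro a b ha hb; rw [D_mul, ha, hb]; ring
  · unfold D; simp
  · intro i _
    refine Finset.prod_induction _ (fun p => D p = 0) ?_ ?_ ?_
    · intro a b ha hb; rw [D_mul, ha, hb]; ring
    · unfold D; simp
    · intro j _
      classical
      unfold D
      simp only [map_sub, MvPolynomial.pderiv_X, Finset.sum_sub_distrib]
      simp [Pi.single_apply]

theorem coeff_D (P : MvPolynomial (Fin d) ℂ) (m : Fin d → ℕ) :
    MvPolynomial.coeff (fs m) (D P) = ∑ i, MvPolynomial.coeff (fs (up m i)) P * ((m i : ℂ) + 1) := by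
  classical
  unfold D
  rw [MvPolynomial.coeff_sum]
  refine Finset.sum_congr rfl fun i _ => ?_
  rw [MvPolynomial.coeff_pderiv]
  have : fs m + Finsupp.single i 1 = fs (up m i) := by
    ext j
    simp only [Finsupp.add_apply, fs_apply, up]
    rcases eq_or_ne j i with rfl | h
    · simp
    · simp [Finsupp.single_apply, Ne.symm h, h]
  rw [this]
  rfl

theorem sum_up (m : Fin d → ℕ) (i : Fin d) : ∑ j, up m i j = (∑ j, m j) + 1 := by
  classical
  unfold up
  rw [Finset.sum_update_of_mem (Finset.mem_univ i), ← Finset.sum_erase_add _ _ (Finset.mem_univ i),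
    Finset.sdiff_singleton_eq_erase]
  ring

theorem prod_fact_up (m : Fin d → ℕ) (i : Fin d) :
    (∏ j, ((up m i j).factorial : ℂ)) = ((m i : ℂ) + 1) * ∏ j, ((m j).factorial : ℂ) := by
  classical
  rw [← Finset.prod_erase_mul _ _ (Finset.mem_univ i), ← Finset.prod_erase_mul _ _ (Finset.mem_univ i)]
  have h1 : ∏ j ∈ Finset.univ.erase i, ((up m i j).factorial : ℂ) = ∏ j ∈ Finset.univ.erase i, ((m j).factorial : ℂ) :=
    Finset.prod_congr rfl fun j hj => by
      rw [up, Function.update_of_ne (Finset.ne_of_mem_erase hj)]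
  rw [h1, up, Function.update_self, Nat.factorial_succ]
  push_cast
  ring

/-- the derivative of `Q` -/
theorem D_Q (t : ℕ) (w : (Fin d → ℕ) → ℂ) :
    D (Q (t + 1) w) = MvPolynomial.C ((t : ℂ) + 1) * Q t (fun m => ∑ i, w (up m i)) := by
  ext n
  rw [← fs_coe n, coeff_D, MvPolynomial.coeff_C_mul, coeff_Q]
  simp only [coeff_Q, sum_up]
  split_ifs with h1 h2 h2
  · rw [Finset.mul_sum, Finset.mul_sum]
    refine Finset.sum_congr rfl fun i _ => ?_
    rw [prod_fact_up, Nat.factorial_succ]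
    have h3 : (∏ j, ((n j).factorial : ℂ)) ≠ 0 := Finset.prod_ne_zero_iff.2 fun i _ => by
      exact_mod_cast Nat.factorial_ne_zero _
    have h4 : ((n i : ℂ) + 1) ≠ 0 := Nat.cast_add_one_ne_zero (n i)
    push_cast
    field_simp
  · omega
  · omega
  · simp

theorem vp_hom : (vp d).IsHomogeneous (d.choose 2) := by
  have h : (vp d).IsHomogeneous (∑ i : Fin d, ∑ _j ∈ Finset.Ioi i, 1) := by
    unfold vp
    refine MvPolynomial.IsHomogeneous.prod _ _ _ fun i _ => ?_
    refine MvPolynomial.IsHomogeneous.prod _ _ _ fun j _ => ?_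
    exact (MvPolynomial.isHomogeneous_X _ i).sub (MvPolynomial.isHomogeneous_X _ j)
  have h2 : ∑ i : Fin d, ∑ _j ∈ Finset.Ioi i, 1 = d.choose 2 := by
    simp only [Finset.sum_const, Fin.card_Ioi, smul_eq_mul, mul_one]
    rw [Fin.sum_univ_eq_sum_range (fun i => d - 1 - i) d, Finset.sum_range_reflect (fun i => i) d,
      Finset.sum_range_id, Nat.choose_two_right]
  rw [h2] at h
  exact h

theorem eval_vp (x : Fin d → ℝ) : MvPolynomial.eval (fun i => (x i : ℂ)) (vp d) = (Dl x : ℂ) := by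
  unfold vp Dl
  simp only [map_prod, map_sub, MvPolynomial.eval_X]
  push_cast
  rfl

theorem trace_dg (x : Fin d → ℝ) (U : Mat d) :
    Matrix.trace (dg x * Uᴴ) = ∑ i, (x i : ℂ) * star (U i i) := by
  unfold dg
  simp [Matrix.trace, Matrix.diagonal_mul, Matrix.conjTranspose_apply]

theorem trace_star (U : Mat d) : Matrix.trace Uᴴ = ∑ i, star (U i i) := by
  simp [Matrix.trace, Matrix.conjTranspose_apply]

theorem cont_tr : Continuous fun U : Matrix.unitaryGroup (Fin d) ℂ => Matrix.trace (U : Mat d) :=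
  continuous_subtype_val.matrix_trace

theorem cont_star : Continuous fun U : Matrix.unitaryGroup (Fin d) ℂ => ∑ i, star ((U : Mat d) i i) :=
  continuous_finsetSum _ fun i _ => (continuous_subtype_val.matrix_elem i i).star

/-- `F` as the value of `fp` -/
theorem eval_fp (t : ℕ) (x : Fin d → ℝ) : MvPolynomial.eval (fun i => (x i : ℂ)) (fp d t) =
    ∫ U : Matrix.unitaryGroup (Fin d) ℂ, (Matrix.trace (U : Mat d)) ^ t *
      (Matrix.trace (dg x * (U : Mat d)ᴴ)) ^ t ∂(haarU (Fin d)) := by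
  have h := eval_Q t (fun U : Matrix.unitaryGroup (Fin d) ℂ => (Matrix.trace (U : Mat d)) ^ t) (cont_tr.pow t)
    (fun i => (x i : ℂ))
  rw [fp_eq]
  refine h.trans ?_
  simp only [trace_dg]

/-- `G` as the value of the derivative of `fp` -/
theorem eval_Dfp (t : ℕ) (x : Fin d → ℝ) : MvPolynomial.eval (fun i => (x i : ℂ)) (D (fp d (t + 1))) =
    ((t : ℂ) + 1) * ∫ U : Matrix.unitaryGroup (Fin d) ℂ, (Matrix.trace (U : Mat d)) ^ (t + 1) *
      ((Matrix.trace (dg x * (U : Mat d)ᴴ)) ^ t * Matrix.trace (U : Mat d)ᴴ) ∂(haarU (Fin d)) := by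
  classical
  rw [fp_eq, D_Q, map_mul, MvPolynomial.eval_C]
  congr 1
  have hc : ∀ i, Continuous fun U : Matrix.unitaryGroup (Fin d) ℂ => star ((U : Mat d) i i) := fun i =>
    (continuous_subtype_val.matrix_elem i i).star
  have h1 : (fun m : Fin d → ℕ => ∑ i, ∫ U : Matrix.unitaryGroup (Fin d) ℂ, (Matrix.trace (U : Mat d)) ^ (t + 1) *
      ∏ j, (star ((U : Mat d) j j)) ^ (up m i j) ∂(haarU (Fin d))) = fun m => ∫ U : Matrix.unitaryGroup (Fin d) ℂ,
      ((Matrix.trace (U : Mat d)) ^ (t + 1) * ∑ i, star ((U : Mat d) i i)) *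
        ∏ j, (star ((U : Mat d) j j)) ^ (m j) ∂(haarU (Fin d)) := by
    funext m
    have hint : ∀ i : Fin d, Integrable (fun U : Matrix.unitaryGroup (Fin d) ℂ => (Matrix.trace (U : Mat d)) ^ (t + 1) *
        ∏ j, (star ((U : Mat d) j j)) ^ (up m i j)) (haarU (Fin d)) := fun i =>
      Continuous.integrable_of_hasCompactSupport ((cont_tr.pow (t + 1)).mul
        (continuous_finsetProd _ fun j _ => (hc j).pow _)) (HasCompactSupport.of_compactSpace _)
    rw [← integral_finsetSum _ fun i _ => hint i]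
    refine integral_congr_ae (Filter.Eventually.of_forall fun U => ?_)
    show ∑ i, (Matrix.trace (U : Mat d)) ^ (t + 1) * ∏ j, (star ((U : Mat d) j j)) ^ (up m i j) =
      ((Matrix.trace (U : Mat d)) ^ (t + 1) * ∑ i, star ((U : Mat d) i i)) * ∏ j, (star ((U : Mat d) j j)) ^ (m j)
    rw [Finset.mul_sum, Finset.sum_mul]
    refine Finset.sum_congr rfl fun i _ => ?_
    rw [← Finset.prod_erase_mul _ _ (Finset.mem_univ i), ← Finset.prod_erase_mul _ _ (Finset.mem_univ i)]
    have h2 : ∏ j ∈ Finset.univ.erase i, (star ((U : Mat d) j j)) ^ (up m i j) =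
        ∏ j ∈ Finset.univ.erase i, (star ((U : Mat d) j j)) ^ (m j) :=
      Finset.prod_congr rfl fun j hj => by
        rw [up, Function.update_of_ne (Finset.ne_of_mem_erase hj)]
    rw [h2, up, Function.update_self, pow_succ]
    ring
  have h := eval_Q t (fun U : Matrix.unitaryGroup (Fin d) ℂ => (Matrix.trace (U : Mat d)) ^ (t + 1) *
    ∑ i, star ((U : Mat d) i i)) ((cont_tr.pow _).mul cont_star) (fun i => (x i : ℂ))
  rw [h1]
  refine h.trans ?_
  simp only [trace_dg, trace_star]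
  refine integral_congr_ae (Filter.Eventually.of_forall fun U => ?_)
  show (Matrix.trace (U : Mat d)) ^ (t + 1) * (∑ i, star ((U : Mat d) i i)) *
    (∑ i, (x i : ℂ) * star ((U : Mat d) i i)) ^ t = (Matrix.trace (U : Mat d)) ^ (t + 1) *
    ((∑ i, (x i : ℂ) * star ((U : Mat d) i i)) ^ t * ∑ i, star ((U : Mat d) i i))
  ring

theorem fa_up (m : Fin d → ℕ) (i : Fin d) : fa (up m i) = ((m i : ℝ) + 1) * fa m := by
  have h := prod_fact_up m i
  unfold fa
  push_cast
  exact_mod_cast h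

/-- (FE) -/
theorem t_FE : S_FEC → S_FE := by
  intro hF d
  obtain ⟨c, hc, hcoef⟩ := hF d
  refine ⟨c, hc, fun t x => ⟨?_, ?_⟩⟩
  · have hh : (vp d * fp d t).IsHomogeneous (t + d.choose 2) := by
      have := (vp_hom (d := d)).mul (Q_hom t fun m => ∫ U : Matrix.unitaryGroup (Fin d) ℂ,
        (Matrix.trace (U : Mat d)) ^ t * ∏ i, (star ((U : Mat d) i i)) ^ (m i) ∂(haarU (Fin d)))
      rw [← fp_eq, add_comm] at this
      exact this
    have h1 := eval_hom hh (fun i => (x i : ℂ))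
    rw [map_mul, eval_vp, eval_fp] at h1
    have h2 := congrArg Complex.re h1
    rw [Complex.re_ofReal_mul] at h2
    unfold F
    rw [h2, Finset.mul_sum, Complex.re_sum]
    refine Finset.sum_congr rfl fun m hm => ?_
    rw [hcoef t (fs m) (mem_pa.1 hm)]
    have h3 : (∏ i, (x i : ℂ) ^ m i) = ((∏ i, x i ^ m i : ℝ) : ℂ) := by push_cast; rfl
    rw [h3, ← Complex.ofReal_mul, Complex.ofReal_re]
    show c t * Dl (rl m) / fa m ^ 2 * ∏ i, x i ^ m i = _
    ring
  · have hh : (D (vp d * fp d (t + 1))).IsHomogeneous (t + d.choose 2) := by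
      have h0 : D (vp d * fp d (t + 1)) = vp d * D (fp d (t + 1)) := by rw [D_mul, D_vp]; ring
      rw [h0, fp_eq, D_Q]
      have h1 := (MvPolynomial.isHomogeneous_C (Fin d) ((t : ℂ) + 1)).mul (Q_hom t fun m => ∑ i,
        ∫ U : Matrix.unitaryGroup (Fin d) ℂ, (Matrix.trace (U : Mat d)) ^ (t + 1) *
          ∏ j, (star ((U : Mat d) j j)) ^ (up m i j) ∂(haarU (Fin d)))
      rw [zero_add] at h1
      have := (vp_hom (d := d)).mul h1
      rw [add_comm (d.choose 2) t] at this
      exact this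
    have h1 := eval_hom hh (fun i => (x i : ℂ))
    have h0 : D (vp d * fp d (t + 1)) = vp d * D (fp d (t + 1)) := by rw [D_mul, D_vp]; ring
    rw [show MvPolynomial.eval (fun i => (x i : ℂ)) (D (vp d * fp d (t + 1))) =
      (Dl x : ℂ) * (((t + 1 : ℕ) : ℝ) : ℂ) * ∫ U : Matrix.unitaryGroup (Fin d) ℂ, (Matrix.trace (U : Mat d)) ^ (t + 1) *
      ((Matrix.trace (dg x * (U : Mat d)ᴴ)) ^ t * Matrix.trace (U : Mat d)ᴴ) ∂(haarU (Fin d)) by
        rw [h0, map_mul, eval_vp, eval_Dfp]; push_cast; ring] at h1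
    have h2 := congrArg Complex.re h1
    rw [← Complex.ofReal_mul, Complex.re_ofReal_mul] at h2
    unfold G
    rw [← mul_assoc, Nat.add_sub_cancel, h2, Finset.mul_sum, Complex.re_sum]
    refine Finset.sum_congr rfl fun m hm => ?_
    rw [coeff_D]
    have h4 : ∀ i, MvPolynomial.coeff (fs (up m i)) (vp d * fp d (t + 1)) * ((m i : ℂ) + 1) =
        ((c (t + 1) * (Dl (rl (up m i)) / ((m i : ℝ) + 1)) / (fa m) ^ 2 : ℝ) : ℂ) := by
      intro i
      rw [hcoef (t + 1) (fs (up m i)) (by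
        show ∑ j, up m i j = _
        rw [sum_up, mem_pa.1 hm]; ring)]
      have h5 : ((m i : ℝ) + 1) ≠ 0 := by positivity
      have h6 : fa m ≠ 0 := by
        unfold fa
        exact_mod_cast Finset.prod_ne_zero_iff.2 fun i _ => Nat.factorial_ne_zero _
      have h7 : ((c (t + 1) * Dl (rl (up m i)) / (fa (up m i)) ^ 2 : ℝ) : ℂ) * ((m i : ℂ) + 1) =
          ((c (t + 1) * Dl (rl (up m i)) / (fa (up m i)) ^ 2 * ((m i : ℝ) + 1) : ℝ) : ℂ) := by push_cast; ring
      refine h7.trans ?_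
      congr 1
      rw [fa_up]
      field_simp
    rw [Finset.sum_congr rfl fun i _ => h4 i, ← Complex.ofReal_sum]
    have h3 : (∏ i, (x i : ℂ) ^ m i) = ((∏ i, x i ^ m i : ℝ) : ℂ) := by push_cast; rfl
    rw [h3, ← Complex.ofReal_mul, Complex.ofReal_re, ← Finset.sum_div, ← Finset.mul_sum]
    ring

end Pool.Agent.J4H21.QB.Fe

/-- (FE) -/
theorem Pool.Agent.J4H21.QB.t_FE : Pool.Agent.J4H61.QB.S_FEC → Pool.Agent.J4H61.QB.S_FE :=
  Pool.Agent.J4H21.QB.Fe.t_FE
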