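import Pool.Agent.J4H61.QB.Stm3

set_option autoImplicit false

/-! Project QB: (FPW) the functional on products, (PWC) the image of a product under the moment operator. -/

open Matrix MeasureTheory
open scoped ComplexOrder

namespace Pool.Agent.J4H21.QB
open Pool.Agent.V11219.MomentOp Pool.Agent.J4H61.QB

/-- continuous functions are integrable -/
theorem integrable_of_cont {n : Type} [Fintype n] [DecidableEq n] {f : Matrix.unitaryGroup n ℂ → ℂ}
    (hf : Continuous f) : Integrable f (haarU n) :=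
  hf.integrable_of_hasCompactSupport (HasCompactSupport.of_compactSpace _)

theorem cont_entry {n : Type} [Fintype n] [DecidableEq n] (i j : n) :
    Continuous fun U : Matrix.unitaryGroup n ℂ => (U : Matrix n n ℂ) i j :=
  (continuous_subtype_val.matrix_elem i j)

/-- trace of a product of powers -/
theorem trace_pw {d : ℕ} (t : ℕ) (A B : Mat d) :
    Matrix.trace (pw t A * pw t B) = (Matrix.trace (A * B)) ^ t := by
  have h1 : Matrix.trace (A * B) = ∑ p : Fin d × Fin d, A p.1 p.2 * B p.2 p.1 := by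
    simp only [Matrix.trace, Matrix.diag, Matrix.mul_apply, Fintype.sum_prod_type]
  have h2 : Matrix.trace (pw t A * pw t B) =
      ∑ q : (Fin t → Fin d) × (Fin t → Fin d), (∏ s, A (q.1 s) (q.2 s)) * ∏ s, B (q.2 s) (q.1 s) := by
    simp only [Matrix.trace, Matrix.diag, Matrix.mul_apply, Fintype.sum_prod_type, pw, Matrix.of_apply]
  rw [h1, h2]
  have h3 : (∑ p : Fin d × Fin d, A p.1 p.2 * B p.2 p.1) ^ t =
      ∏ _s : Fin t, ∑ p : Fin d × Fin d, A p.1 p.2 * B p.2 p.1 := by
    rw [Finset.prod_const, Finset.card_univ, Fintype.card_fin]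
  rw [h3, Finset.prod_univ_sum, Fintype.piFinset_univ]
  refine Fintype.sum_equiv
    (Equiv.arrowProdEquivProdArrow (Fin t) (fun _ => Fin d) (fun _ => Fin d)).symm _ _ ?_
  rintro ⟨i, j⟩
  simp [Finset.prod_mul_distrib, Equiv.arrowProdEquivProdArrow]

theorem pw_conjTranspose {d : ℕ} (t : ℕ) (X : Mat d) : (pw t X)ᴴ = pw t Xᴴ := by
  ext i j
  simp [pw, Matrix.conjTranspose_apply]

theorem cont_pw {d : ℕ} (t : ℕ) (i j : Fin t → Fin d) :
    Continuous fun U : Matrix.unitaryGroup (Fin d) ℂ => pw t (U : Mat d)ᴴ i j := by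
  simp only [pw, Matrix.of_apply, Matrix.conjTranspose_apply]
  exact continuous_finset_prod _ fun s _ => (cont_entry (j s) (i s)).star

theorem cont_trace {d : ℕ} :
    Continuous fun U : Matrix.unitaryGroup (Fin d) ℂ => Matrix.trace (U : Mat d) :=
  continuous_subtype_val.matrix_trace

/-- (FPW) -/
theorem t_FPW : S_FPW := by
  intro d t X
  unfold F
  congr 1
  rw [pw_conjTranspose]
  have h1 : Matrix.trace (pw t Xᴴ * Zm d t) = ∑ i, ∑ j, ∫ U : Matrix.unitaryGroup (Fin d) ℂ,
      pw t Xᴴ i j * ((Matrix.trace (U : Mat d)) ^ t * pw t (U : Mat d)ᴴ j i) ∂(haarU (Fin d)) := by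
    simp only [Matrix.trace, Matrix.diag, Matrix.mul_apply, Zm, Matrix.of_apply]
    refine Finset.sum_congr rfl fun i _ => Finset.sum_congr rfl fun j _ => ?_
    rw [← integral_const_mul]
  have hint : ∀ i j : Fin t → Fin d, Integrable (fun U : Matrix.unitaryGroup (Fin d) ℂ =>
      pw t Xᴴ i j * ((Matrix.trace (U : Mat d)) ^ t * pw t (U : Mat d)ᴴ j i)) (haarU (Fin d)) := fun i j =>
    integrable_of_cont (continuous_const.mul ((cont_trace.pow t).mul (cont_pw t j i)))
  rw [h1]
  have h2 : ∀ i : Fin t → Fin d, ∑ j, ∫ U : Matrix.unitaryGroup (Fin d) ℂ,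
      pw t Xᴴ i j * ((Matrix.trace (U : Mat d)) ^ t * pw t (U : Mat d)ᴴ j i) ∂(haarU (Fin d)) =
      ∫ U : Matrix.unitaryGroup (Fin d) ℂ, ∑ j,
      pw t Xᴴ i j * ((Matrix.trace (U : Mat d)) ^ t * pw t (U : Mat d)ᴴ j i) ∂(haarU (Fin d)) := fun i =>
    (integral_finsetSum _ fun j _ => hint i j).symm
  simp only [h2]
  rw [← integral_finsetSum _ fun i _ => integrable_finsetSum _ fun j _ => hint i j]
  refine integral_congr_ae (Filter.Eventually.of_forall fun U => ?_)
  show ∑ i, ∑ j, pw t Xᴴ i j * ((Matrix.trace (U : Mat d)) ^ t * pw t (U : Mat d)ᴴ j i) =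
    (Matrix.trace (U : Mat d)) ^ t * (Matrix.trace (Xᴴ * (U : Mat d)ᴴ)) ^ t
  have h5 : Matrix.trace (pw t Xᴴ * pw t (U : Mat d)ᴴ) = ∑ i, ∑ j, pw t Xᴴ i j * pw t (U : Mat d)ᴴ j i := by
    simp only [Matrix.trace, Matrix.diag_apply, Matrix.mul_apply]
  rw [← trace_pw, h5, Finset.mul_sum]
  refine Finset.sum_congr rfl fun i _ => ?_
  rw [Finset.mul_sum]
  refine Finset.sum_congr rfl fun j _ => ?_
  ring

/-- the tensor power in matrix units -/
theorem tensorPow_eq {d : ℕ} (t : ℕ) (Φ : Mat d →ₗ[ℂ] Mat d) (X : MatT d t) (k l : Fin t → Fin d) :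
    tensorPow t Φ X k l = ∑ i, ∑ j, X i j * tensorPow t Φ (Matrix.single i j 1) k l := by
  conv_lhs => rw [Matrix.matrix_eq_sum_single X]
  simp only [map_sum, Matrix.sum_apply]
  refine Finset.sum_congr rfl fun i _ => Finset.sum_congr rfl fun j _ => ?_
  have : Matrix.single i j (X i j) = (X i j) • Matrix.single i j (1 : ℂ) := by
    simp [Matrix.smul_single]
  rw [this, map_smul]; rfl

theorem cont_dilated {d dE : ℕ} (ψ : Fin dE → ℂ) (X : Mat d) (k l : Fin d) :
    Continuous fun V : Matrix.unitaryGroup (Fin d × Fin dE) ℂ =>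
      dilated ψ (V : Matrix (Fin d × Fin dE) (Fin d × Fin dE) ℂ) X k l := by
  show Continuous fun V : Matrix.unitaryGroup (Fin d × Fin dE) ℂ => ∑ x : Fin dE,
    ((V : Matrix (Fin d × Fin dE) (Fin d × Fin dE) ℂ) *
      (Matrix.kronecker X (Matrix.vecMulVec ψ (star ψ))) *
      (V : Matrix (Fin d × Fin dE) (Fin d × Fin dE) ℂ)ᴴ) (k, x) (l, x)
  refine continuous_finset_sum _ fun x _ => ?_
  refine Continuous.matrix_elem ?_ _ _
  exact (continuous_subtype_val.matrix_mul continuous_const).matrix_mul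
    continuous_subtype_val.matrix_conjTranspose

theorem cont_tensorPow {d dE : ℕ} (t : ℕ) (ψ : Fin dE → ℂ) (X : MatT d t) (k l : Fin t → Fin d) :
    Continuous fun V : Matrix.unitaryGroup (Fin d × Fin dE) ℂ =>
      tensorPow t (dilated (d := d) ψ (V : Matrix (Fin d × Fin dE) (Fin d × Fin dE) ℂ)) X k l := by
  show Continuous fun V : Matrix.unitaryGroup (Fin d × Fin dE) ℂ => ∑ i, ∑ j, X i j * ∏ s,
    dilated (d := d) ψ (V : Matrix (Fin d × Fin dE) (Fin d × Fin dE) ℂ)
      (Matrix.single (i s) (j s) 1) (k s) (l s)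
  exact continuous_finset_sum _ fun i _ => continuous_finset_sum _ fun j _ =>
    continuous_const.mul (continuous_finset_prod _ fun s _ => cont_dilated ψ _ _ _)

/-- (PWC) -/
theorem t_PWC : S_PWC := by
  intro t d dE ψ X k l
  have h1 : cOp t d dE ψ (pw t X) k l = ∑ i, ∑ j, ∫ V : Matrix.unitaryGroup (Fin d × Fin dE) ℂ,
      pw t X i j * tensorPow t (dilated (d := d) ψ (V : Matrix (Fin d × Fin dE) (Fin d × Fin dE) ℂ))
        (Matrix.single i j 1) k l ∂(haarU (Fin d × Fin dE)) := by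
    show ∑ i, ∑ j, pw t X i j * ∫ V : Matrix.unitaryGroup (Fin d × Fin dE) ℂ,
      tensorPow t (dilated (d := d) ψ (V : Matrix (Fin d × Fin dE) (Fin d × Fin dE) ℂ))
        (Matrix.single i j 1) k l ∂(haarU (Fin d × Fin dE)) = _
    refine Finset.sum_congr rfl fun i _ => Finset.sum_congr rfl fun j _ => ?_
    rw [← integral_const_mul]
  have hint : ∀ i j : Fin t → Fin d, Integrable (fun V : Matrix.unitaryGroup (Fin d × Fin dE) ℂ =>
      pw t X i j * tensorPow t (dilated (d := d) ψ (V : Matrix (Fin d × Fin dE) (Fin d × Fin dE) ℂ))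
        (Matrix.single i j 1) k l) (haarU (Fin d × Fin dE)) := fun i j =>
    integrable_of_cont (continuous_const.mul (cont_tensorPow t ψ _ k l))
  rw [h1]
  have h2 : ∀ i : Fin t → Fin d, ∑ j, ∫ V : Matrix.unitaryGroup (Fin d × Fin dE) ℂ,
      pw t X i j * tensorPow t (dilated (d := d) ψ (V : Matrix (Fin d × Fin dE) (Fin d × Fin dE) ℂ))
        (Matrix.single i j 1) k l ∂(haarU (Fin d × Fin dE)) =
      ∫ V : Matrix.unitaryGroup (Fin d × Fin dE) ℂ, ∑ j,
      pw t X i j * tensorPow t (dilated (d := d) ψ (V : Matrix (Fin d × Fin dE) (Fin d × Fin dE) ℂ))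
        (Matrix.single i j 1) k l ∂(haarU (Fin d × Fin dE)) := fun i =>
    (integral_finsetSum _ fun j _ => hint i j).symm
  simp only [h2]
  rw [← integral_finsetSum _ fun i _ => integrable_finsetSum _ fun j _ => hint i j]
  refine integral_congr_ae (Filter.Eventually.of_forall fun V => ?_)
  show ∑ i, ∑ j, pw t X i j * tensorPow t (dilated (d := d) ψ
      (V : Matrix (Fin d × Fin dE) (Fin d × Fin dE) ℂ)) (Matrix.single i j 1) k l =
    pw t (dilated ψ (V : Matrix (Fin d × Fin dE) (Fin d × Fin dE) ℂ) X) k l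
  rw [← tensorPow_eq]
  have := tensorPow_pure t (dilated (d := d) ψ (V : Matrix (Fin d × Fin dE) (Fin d × Fin dE) ℂ)) (fun _ => X)
  exact congrFun (congrFun this k) l

end Pool.Agent.J4H21.QB

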